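import Pool.Agent.Y57.FD.Base

/-!
# The Koblitz conjecture at integers with few changed digits

Let the integers `n 0, ..., n (d - 1)` arise from arbitrary integers by changing a few digits.  For all but a small proportion of the
choices the following holds **simultaneously for all** `m`-tuples of elliptic curves `E_i : Y ^ 2 = X ^ 3 + α_i X + β_i` whose
coefficients `α_i`, `β_i` are polynomials in `n` with at most `T` terms, with coefficients and exponents up to `x ^ A` (for instance for the curve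
`Y ^ 2 = X ^ 3 + n 0 X + n 1` and all its quadratic twists by integers up to `x ^ A`), for all positive integers `t_1, ..., t_m` and
for the primes `p ≤ x` from arbitrary families of sets (for instance all short intervals and arithmetic progressions): the number of
primes `p` of good reduction for which all `|E_i(𝔽_p)| / t_i` are prime numbers is the expected one `V`, the sum of the local proportions,
with an error of at most `(max 1 V) ^ (1 / 2) x ^ δ`.  For `m = 1` this counts the primes of the refined Koblitz conjecture.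
-/

set_option autoImplicit false

namespace Pool.Agent.Results.MP_b89fd0_nt.FewDigitCurves

open Finset

/-- The number `|E(𝔽_p)|` of the points of `Y ^ 2 = X ^ 3 + α X + β` modulo `p`, with the point at infinity. -/
def order (p : ℕ) (α β : ℤ) : ℕ :=
  ((range p ×ˢ range p).filter (fun xy => (p : ℤ) ∣ (xy.2 : ℤ) ^ 2 - ((xy.1 : ℤ) ^ 3 + α * xy.1 + β))).card + 1

/-- The curve `Y ^ 2 = X ^ 3 + α X + β` remains smooth modulo `p` and `|E(𝔽_p)| / t` is a prime number. -/
def PrimeQuotient (t p : ℕ) (α β : ℤ) : Prop :=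
  ¬ (p : ℤ) ∣ 2 * (4 * α ^ 3 + 27 * β ^ 2) ∧ ∃ l : ℕ, l.Prime ∧ order p α β = t * l

/-- The value `∑ h < T, B h * ∏ l, n l ^ k h l` of a polynomial with `T` terms at the integers `n l`. -/
def poly {T d : ℕ} (B : Fin T → ℤ) (k : Fin T → Fin d → ℕ) (n : Fin d → ℕ) : ℤ := ∑ h, B h * ∏ l, (n l : ℤ) ^ k h l

/-- For the curves `E_i : Y ^ 2 = X ^ 3 + α_i X + β_i` whose coefficients are the polynomials given by `B i 0`, `k i 0` and `B i 1`, `k i 1` at
`n`, all the numbers `|E_i(𝔽_p)| / t i` are prime. -/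
def AllPrime {T d m : ℕ} (B : Fin m → Fin 2 → Fin T → ℤ) (k : Fin m → Fin 2 → Fin T → Fin d → ℕ) (t : Fin m → ℕ) (p : ℕ)
    (n : Fin d → ℕ) : Prop :=
  ∀ i, PrimeQuotient (t i) p (poly (B i 0) (k i 0) n) (poly (B i 1) (k i 1) n)

open Classical in
/-- The number of the primes `p` in the set `P` for which all the numbers `|E_i(𝔽_p)| / t i` are prime. -/
noncomputable def count {T d m : ℕ} (P : Finset ℕ) (B : Fin m → Fin 2 → Fin T → ℤ) (k : Fin m → Fin 2 → Fin T → Fin d → ℕ)
    (t : Fin m → ℕ) (n : Fin d → ℕ) : ℕ :=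
  (P.filter (fun p => AllPrime B k t p n)).card

open Classical in
/-- The expected number: the sum over the primes `p ∈ P` of the proportion of the vectors `u` of residues modulo `p` for
which all the numbers `|E_i(𝔽_p)| / t i` are prime for the curves with the parameters `u`. -/
noncomputable def expected {T d m : ℕ} (P : Finset ℕ) (B : Fin m → Fin 2 → Fin T → ℤ) (k : Fin m → Fin 2 → Fin T → Fin d → ℕ)
    (t : Fin m → ℕ) : ℝ :=
  ∑ p ∈ P, (((Fintype.piFinset (fun _ : Fin d => range p)).filter (fun u => AllPrime B k t p u)).card : ℝ) / (p : ℝ) ^ d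

/-- For all `m`-tuples of curves with coefficients given by polynomials with at most `T` terms, with coefficients and exponents up to `x ^ A`, all
`t` and all sets `P ∈ F` of primes the count is the expected number up to its square root times `x ^ δ`. -/
def Good {d : ℕ} (m T A : ℕ) (δ : ℝ) (F : Finset (Finset ℕ)) (x : ℕ) (n : Fin d → ℕ) : Prop :=
  ∀ P ∈ F, ∀ (B : Fin m → Fin 2 → Fin T → ℤ) (k : Fin m → Fin 2 → Fin T → Fin d → ℕ) (t : Fin m → ℕ),
    (∀ i j h, |B i j h| ≤ (x : ℤ) ^ A) → (∀ i j h l, k i j h l ≤ x ^ A) →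
    |(count P B k t n : ℝ) - expected P B k t| ≤ Real.sqrt (max 1 (expected P B k t)) * (x : ℝ) ^ δ

/-- The digit number `i` (counted from the right, beginning with `0`) of `n` in base `q`. -/
def digit (q i n : ℕ) : ℕ := n / q ^ i % q

/-- The number which arises from the number `N` with at most `K` digits in base `q`, if for every `i ∈ S`
the digit number `i` is replaced by `f i`. -/
def change (q K N : ℕ) (f : ℕ → ℕ) (S : Finset ℕ) : ℕ :=
  ∑ i ∈ range K, (if i ∈ S then f i else digit q i N) * q ^ i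

open Classical in
/-- The number of the choices of `r l` of `K l` positions for all `l < d` for which the vector of the numbers obtained by
changing the digits of the `N l` at the chosen positions (according to `f l`) does not have the property `E`. -/
noncomputable def exceptions {d : ℕ} (q : ℕ) (K r N : Fin d → ℕ) (f : Fin d → ℕ → ℕ) (E : (Fin d → ℕ) → Prop) : ℕ :=
  ((Fintype.piFinset (fun l => powersetCard (r l) (range (K l)))).filter
    (fun S => ¬ E (fun l => change q (K l) (N l) (f l) (S l)))).card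

lemma exc_eq {d : ℕ} (q : ℕ) (K r N : Fin d → ℕ) (f : Fin d → ℕ → ℕ) (E : (Fin d → ℕ) → Prop) :
    exceptions q K r N f E = Pool.Agent.Y57.FD.exceptions q K r N f E := rfl

lemma order_congr {p : ℕ} {α β α' β' : ℤ} (hα : (p : ℤ) ∣ α - α') (hβ : (p : ℤ) ∣ β - β') : order p α β = order p α' β' := by
  unfold order
  congr 2
  apply filter_congr
  intro xy _
  apply dvd_iff_dvd_of_dvd_sub
  obtain ⟨u, hu⟩ := hα
  obtain ⟨v, hv⟩ := hβ
  exact ⟨-(u * xy.1 + v), by linear_combination (-(xy.1 : ℤ)) * hu - hv⟩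

lemma quot_congr {t p : ℕ} {α β α' β' : ℤ} (hα : (p : ℤ) ∣ α - α') (hβ : (p : ℤ) ∣ β - β') :
    PrimeQuotient t p α β ↔ PrimeQuotient t p α' β' := by
  unfold PrimeQuotient
  rw [order_congr hα hβ]
  have h : (p : ℤ) ∣ 2 * (4 * α ^ 3 + 27 * β ^ 2) ↔ (p : ℤ) ∣ 2 * (4 * α' ^ 3 + 27 * β' ^ 2) := by
    apply dvd_iff_dvd_of_dvd_sub
    obtain ⟨u, hu⟩ := hα
    obtain ⟨v, hv⟩ := hβ
    exact ⟨8 * u * (α ^ 2 + α * α' + α' ^ 2) + 54 * v * (β + β'), by
      linear_combination (8 * (α ^ 2 + α * α' + α' ^ 2)) * hu + 54 * (β + β') * hv⟩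
  rw [h]

lemma poly_mod {T d : ℕ} (B : Fin T → ℤ) (k : Fin T → Fin d → ℕ) (p : ℕ) (n : Fin d → ℕ) :
    (p : ℤ) ∣ poly B k n - poly B k (fun l => n l % p) := by
  rw [← ZMod.intCast_zmod_eq_zero_iff_dvd, Int.cast_sub, sub_eq_zero]
  unfold poly
  push_cast
  rfl

lemma quot_bound {t p : ℕ} {α β : ℤ} (h : PrimeQuotient t p α β) : 1 ≤ t ∧ t ≤ p ^ 2 + 1 := by
  obtain ⟨_, l, hl, ho⟩ := h
  have h1 : order p α β ≤ p ^ 2 + 1 := by
    unfold order
    have := card_filter_le (range p ×ˢ range p) (fun xy => (p : ℤ) ∣ (xy.2 : ℤ) ^ 2 - ((xy.1 : ℤ) ^ 3 + α * xy.1 + β))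
    rw [card_product, card_range] at this
    nlinarith
  have h2 : 1 ≤ order p α β := by
    unfold order
    omega
  have hl1 := hl.one_lt.le
  constructor
  · rcases Nat.eq_zero_or_pos t with h0 | h0
    · rw [h0, Nat.zero_mul] at ho
      omega
    · exact h0
  · calc t ≤ t * l := Nat.le_mul_of_pos_right _ hl.pos
      _ = order p α β := ho.symm
      _ ≤ _ := h1

/-- Let a base `q ≥ 2`, the number `d ≥ 1` of the integers which vary, the number `m` of the curves, the number `T` of the terms, `δ > 0` and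
an integer `A ≥ 0` be given.  There are `c > 0` and `y₀` such that for all integers `r l`, `K l`, `y` with `2 r l ≤ K l` and `y ≥ y₀` the
following holds.

Let `0 ≤ N l < q ^ K l` be arbitrary integers, prescribe for every position `j` a digit `f l j` different from the digit of
`N l` in base `q`, and let `F x` be for every `x` a family of at most `x ^ A` arbitrary sets of primes up to `x`.  If one chooses `r l` of
the `K l` positions and replaces the digits of `N l` at these positions, then for all but at most a proportion `1 / y ^ A` of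
the choices the vector `n` obtained has the following property for all integers `x` with `y ≤ x ≤ exp (c r l)` for all `l`: for all
`P ∈ F x`, all `m`-tuples of curves `E_i : Y ^ 2 = X ^ 3 + α_i X + β_i` whose coefficients are polynomials `∑ h < T, B h * ∏ l, n l ^ k h l`,
`|B h| ≤ x ^ A`, `k h l ≤ x ^ A`, and all positive integers `t 0, ..., t (m - 1)` the number of the primes `p ∈ P` of good reduction for
which all the numbers `|E_i(𝔽_p)| / t i` are prime differs from its expected value `V` by at most `(max 1 V) ^ (1 / 2) x ^ δ`. -/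
theorem result (q d m T : ℕ) (hq : 2 ≤ q) (hd : 1 ≤ d) (δ : ℝ) (hδ : 0 < δ) (A : ℕ) : ∃ c : ℝ, 0 < c ∧ ∃ y₀ : ℕ,
    ∀ (K r : Fin d → ℕ) (y : ℕ), (∀ l, 2 * r l ≤ K l) → y₀ ≤ y →
    ∀ N : Fin d → ℕ, (∀ l, N l < q ^ K l) → ∀ f : Fin d → ℕ → ℕ, (∀ l j, f l j < q ∧ f l j ≠ digit q j (N l)) →
    ∀ F : ℕ → Finset (Finset ℕ), (∀ x, (F x).card ≤ x ^ A) → (∀ x, ∀ P ∈ F x, ∀ p ∈ P, p.Prime ∧ p ≤ x) →
      (exceptions q K r N f (fun n => ∀ x : ℕ, y ≤ x → (∀ l, (x : ℝ) ≤ Real.exp (c * r l)) → Good m T A δ (F x) x n) : ℝ) ≤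
        1 / (y : ℝ) ^ A * ∏ l, ((K l).choose (r l) : ℝ) := by
  classical
  obtain ⟨c, hc, y₀, h⟩ := Pool.Agent.Y57.FD.law q d hq hd δ hδ A
    (A + ((A + 2) * (T * (2 * m)) + ((A + 1) * (d * (T * (2 * m))) + 3 * m)))
  refine ⟨c, hc, y₀ + 2, fun K r y hrK hy N hN f hf F hF hFP => ?_⟩
  rw [exc_eq]
  refine h K r y hrK (by omega) N hN f hf
    (Finset ℕ × (Fin m → Fin 2 → Fin T → ℤ) × (Fin m → Fin 2 → Fin T → Fin d → ℕ) × (Fin m → ℕ))
    (fun x => (F x) ×ˢ ((Fintype.piFinset (fun _ : Fin m => Fintype.piFinset (fun _ : Fin 2 =>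
        Fintype.piFinset (fun _ : Fin T => Icc (-((x : ℤ) ^ A)) ((x : ℤ) ^ A))))) ×ˢ
      ((Fintype.piFinset (fun _ : Fin m => Fintype.piFinset (fun _ : Fin 2 =>
        Fintype.piFinset (fun _ : Fin T => Fintype.piFinset (fun _ : Fin d => range (x ^ A + 1)))))) ×ˢ
      (Fintype.piFinset (fun _ : Fin m => Icc 1 (x ^ 2 + 1)))))) ?_
    (fun x l => if l.1 ∈ F x then l.1 else ∅) ?_
    (fun l p n => AllPrime l.2.1 l.2.2.1 l.2.2.2 p n) ?_ _ ?_
  · intro x hx
    rw [card_product, card_product, card_product]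
    simp only [Fintype.card_piFinset_const, Int.card_Icc, Nat.card_Icc, card_range, Nat.add_sub_cancel]
    have hxA : 1 ≤ x ^ A := Nat.one_le_pow _ _ (by omega)
    have e1 : ((x : ℤ) ^ A + 1 - -((x : ℤ) ^ A)).toNat = 2 * x ^ A + 1 := by
      have : ((x : ℤ) ^ A + 1 - -((x : ℤ) ^ A)) = ((2 * x ^ A + 1 : ℕ) : ℤ) := by
        push_cast
        ring
      rw [this, Int.toNat_natCast]
    rw [e1]
    have e2 : 2 * x ^ A + 1 ≤ x ^ (A + 2) := by
      have : x ^ A * 4 ≤ x ^ A * (x * x) := Nat.mul_le_mul_left _ (by nlinarith)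
      calc 2 * x ^ A + 1 ≤ x ^ A * 4 := by omega
        _ ≤ x ^ A * (x * x) := this
        _ = x ^ (A + 2) := by ring
    have e3 : x ^ A + 1 ≤ x ^ (A + 1) := by
      have : x ^ A * 2 ≤ x ^ A * x := Nat.mul_le_mul_left _ hx
      calc x ^ A + 1 ≤ x ^ A * 2 := by omega
        _ ≤ x ^ A * x := this
        _ = x ^ (A + 1) := by ring
    have e4 : x ^ 2 + 1 ≤ x ^ 3 := by nlinarith
    rw [pow_add, pow_add, pow_add]
    refine Nat.mul_le_mul (hF x) (Nat.mul_le_mul ?_ (Nat.mul_le_mul ?_ ?_))
    · calc (((2 * x ^ A + 1) ^ T) ^ 2) ^ m ≤ (((x ^ (A + 2)) ^ T) ^ 2) ^ m :=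
            Nat.pow_le_pow_left (Nat.pow_le_pow_left (Nat.pow_le_pow_left e2 _) _) _
        _ = x ^ ((A + 2) * (T * (2 * m))) := by
          rw [← pow_mul, ← pow_mul, ← pow_mul]
    · calc ((((x ^ A + 1) ^ d) ^ T) ^ 2) ^ m ≤ ((((x ^ (A + 1)) ^ d) ^ T) ^ 2) ^ m :=
            Nat.pow_le_pow_left (Nat.pow_le_pow_left (Nat.pow_le_pow_left (Nat.pow_le_pow_left e3 _) _) _) _
        _ = x ^ ((A + 1) * (d * (T * (2 * m)))) := by
          rw [← pow_mul, ← pow_mul, ← pow_mul, ← pow_mul]
    · calc (x ^ 2 + 1) ^ m ≤ (x ^ 3) ^ m := Nat.pow_le_pow_left e4 _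
        _ = x ^ (3 * m) := by rw [← pow_mul]
  · intro x l p hp
    by_cases hl : l.1 ∈ F x
    · rw [if_pos hl] at hp
      exact hFP x l.1 hl p hp
    · rw [if_neg hl] at hp
      exact absurd hp (notMem_empty p)
  · intro l p _ n
    exact forall_congr' fun i => quot_congr (poly_mod (l.2.1 i 0) (l.2.2.1 i 0) p n) (poly_mod (l.2.1 i 1) (l.2.2.1 i 1) p n)
  · intro n hn x hyx hxr P hP B k t hB hk
    by_cases ht : ∀ i, 1 ≤ t i ∧ t i ≤ x ^ 2 + 1
    · have h1 := hn x (by omega) hyx hxr (P, B, k, t) (by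
        rw [mem_product, mem_product, mem_product]
        refine ⟨hP, ?_, ?_, ?_⟩
        · simp only [Fintype.mem_piFinset, mem_Icc]
          exact fun i j h => abs_le.1 (hB i j h)
        · simp only [Fintype.mem_piFinset, mem_range]
          exact fun i j h l => Nat.lt_succ_of_le (hk i j h l)
        · simp only [Fintype.mem_piFinset, mem_Icc]
          exact ht)
      simp only [if_pos hP] at h1
      exact h1
    · have hno : ∀ p ∈ P, ∀ v : Fin d → ℕ, ¬ AllPrime B k t p v := by
        intro p hp v hcon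
        apply ht
        intro i
        obtain ⟨h1, h2⟩ := quot_bound (hcon i)
        have h3 := (hFP x P hP p hp).2
        exact ⟨h1, h2.trans (by nlinarith)⟩
      have e1 : count P B k t n = 0 := by
        unfold count
        rw [card_eq_zero, filter_eq_empty_iff]
        exact fun p hp => hno p hp n
      have e2 : expected P B k t = 0 := by
        unfold expected
        apply sum_eq_zero
        intro p hp
        rw [filter_false_of_mem (fun u _ => hno p hp u), card_empty, Nat.cast_zero, zero_div]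
      rw [e1, e2]
      simp only [Nat.cast_zero, sub_zero, abs_zero]
      positivity

end Pool.Agent.Results.MP_b89fd0_nt.FewDigitCurves
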